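import Pool.Agent.H25.PG.Targets
import Pool.Agent.H94.PM.TL

/-!
# Rows TI and YC of the board pg_modules
-/

set_option autoImplicit false

open Finset

namespace Pool.Agent.H36.PG

open Pool.Agent.H55.PM Pool.Agent.H25.PG Pool.Agent.H94.PM

theorem pf_TI : T_TI := by
  intro V k
  refine ⟨(ip V k, ep V k), ⟨ip_mem k, ep_mem k, ip_add_ep k⟩, ?_⟩
  rintro ⟨i, e⟩ ⟨hi, he, h⟩
  have := split_inj (V := V) hi he (ip_mem k) (ep_mem k) (by rw [ip_add_ep]; exact h)
  exact Prod.ext this.1 this.2

theorem dg_two (j n : ℕ) : dg 2 j n = if n.testBit j then 1 else 0 := by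
  unfold dg
  rw [Nat.testBit_eq_decide_div_mod_eq]
  have h : n / 2 ^ j % 2 < 2 := Nat.mod_lt _ (by norm_num)
  split_ifs with h1
  · simpa using h1
  · simp only [decide_eq_true_eq] at h1
    omega

theorem pf_YC : T_YC := by
  classical
  intro D J
  induction J with
  | zero =>
    have h1 : {y : ℕ | y < 2 ^ 0 ∧ y ∈ DS 2 D} = {0} := by
      ext y
      simp only [Set.mem_ofPred_eq, Set.mem_singleton_iff, pow_zero, Nat.lt_one_iff]
      constructor
      · exact fun h => h.1
      · rintro rfl
        refine ⟨rfl, fun j _ => ?_⟩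
        simp [dg]
    have h2 : D ∩ Set.Iio 0 = ∅ := by
      ext y
      simp
    rw [h1, h2]
    simp
  | succ J ih =>
    have hfin : ∀ K : ℕ, (D ∩ Set.Iio K).Finite := fun K =>
      (Set.finite_Iio K).subset Set.inter_subset_right
    have hlow : ∀ y, y < 2 ^ J → dg 2 J y = 0 := by
      intro y hy
      unfold dg
      rw [Nat.div_eq_of_lt hy]
    by_cases hJ : J ∈ D
    · have h1 : {y : ℕ | y < 2 ^ (J + 1) ∧ y ∈ DS 2 D} =
          {y | y < 2 ^ J ∧ y ∈ DS 2 D} ∪
            (fun y => 2 ^ J + y) '' {y | y < 2 ^ J ∧ y ∈ DS 2 D} := by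
        ext y
        simp only [Set.mem_ofPred_eq, Set.mem_union, Set.mem_image]
        constructor
        · rintro ⟨h, hD⟩
          rcases lt_or_ge y (2 ^ J) with h3 | h3
          · exact Or.inl ⟨h3, hD⟩
          · refine Or.inr ⟨y - 2 ^ J, ⟨by rw [pow_succ] at h; omega, ?_⟩, by omega⟩
            intro j hj
            have h4 := hD j hj
            have hjJ : j ≠ J := fun h => hj (h ▸ hJ)
            obtain ⟨z, rfl⟩ : ∃ z, y = 2 ^ J + z := ⟨y - 2 ^ J, by omega⟩
            have hz : z < 2 ^ J := by rw [pow_succ] at h; omega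
            rw [Nat.add_sub_cancel_left]
            rw [dg_two] at h4 ⊢
            rw [Nat.add_comm, ] at h4
            rcases lt_or_gt_of_ne hjJ with h5 | h5
            · have : (2 ^ J + z).testBit j = z.testBit j := by
                rw [Nat.testBit_two_pow_add_gt h5]
              rw [Nat.add_comm, this] at h4
              exact h4
            · have : z.testBit j = false := Nat.testBit_lt_two_pow
                (lt_of_lt_of_le hz (Nat.pow_le_pow_right (by norm_num) h5.le))
              rw [this]
              simp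
        · rintro (⟨h, hD⟩ | ⟨z, ⟨hz, hD⟩, rfl⟩)
          · exact ⟨lt_trans h (by rw [pow_succ]; have := Nat.two_pow_pos J; omega), hD⟩
          · refine ⟨by rw [pow_succ]; omega, ?_⟩
            intro j hj
            have h4 := hD j hj
            have hjJ : j ≠ J := fun h => hj (h ▸ hJ)
            rw [dg_two] at h4 ⊢
            rcases lt_or_gt_of_ne hjJ with h5 | h5
            · rw [Nat.testBit_two_pow_add_gt h5]
              exact h4
            · have : (2 ^ J + z).testBit j = false := Nat.testBit_lt_two_pow
                (lt_of_lt_of_le (show 2 ^ J + z < 2 ^ (J + 1) by rw [pow_succ]; omega)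
                  (Nat.pow_le_pow_right (by norm_num) h5))
              rw [this]
              simp
      have h2 : D ∩ Set.Iio (J + 1) = insert J (D ∩ Set.Iio J) := by
        ext y
        simp only [Set.mem_inter_iff, Set.mem_Iio, Set.mem_insert_iff]
        constructor
        · rintro ⟨h, h'⟩
          rcases Nat.lt_succ_iff_lt_or_eq.mp h' with h3 | h3
          · exact Or.inr ⟨h, h3⟩
          · exact Or.inl h3
        · rintro (rfl | ⟨h, h'⟩)
          · exact ⟨hJ, Nat.lt_succ_self _⟩
          · exact ⟨h, Nat.lt_succ_of_lt h'⟩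
      have hf : {y : ℕ | y < 2 ^ J ∧ y ∈ DS 2 D}.Finite :=
        (Set.finite_Iio (2 ^ J)).subset (fun y hy => hy.1)
      rw [h1, h2, Set.ncard_insert_of_notMem (by simp) (hfin J), pow_succ, ← ih,
        Set.ncard_union_eq ?_ hf (hf.image _), Set.ncard_image_of_injective _
          (fun a b h => Nat.add_left_cancel h)]
      · ring
      · rw [Set.disjoint_left]
        rintro y ⟨hy, -⟩ ⟨z, -, rfl⟩
        simp only [] at hy
        omega
    · have h1 : {y : ℕ | y < 2 ^ (J + 1) ∧ y ∈ DS 2 D} = {y | y < 2 ^ J ∧ y ∈ DS 2 D} := by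
        ext y
        simp only [Set.mem_ofPred_eq]
        constructor
        · rintro ⟨h, hD⟩
          refine ⟨?_, hD⟩
          by_contra h3
          have h4 := hD J hJ
          unfold dg at h4
          have h5 : y / 2 ^ J = 1 := by
            rw [Nat.div_eq_iff (Nat.two_pow_pos J)]
            rw [pow_succ] at h
            constructor <;> omega
          rw [h5] at h4
          omega
        · rintro ⟨h, hD⟩
          exact ⟨lt_trans h (by rw [pow_succ]; have := Nat.two_pow_pos J; omega), hD⟩
      have h2 : D ∩ Set.Iio (J + 1) = D ∩ Set.Iio J := by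
        ext y
        simp only [Set.mem_inter_iff, Set.mem_Iio]
        constructor
        · rintro ⟨h, h'⟩
          rcases Nat.lt_succ_iff_lt_or_eq.mp h' with h3 | h3
          · exact ⟨h, h3⟩
          · exact absurd (h3 ▸ h) hJ
        · rintro ⟨h, h'⟩
          exact ⟨h, Nat.lt_succ_of_lt h'⟩
      rw [h1, h2, ih]

end Pool.Agent.H36.PG
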